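import Pool.Agent.H55.CU.Defs

/-!
# The sharp upper bound of the slope of the copolymer critical curve: targets (helper55)

Every `T_X` is a proposition to be proved in a module of its own. See `Defs.lean`.
-/

set_option autoImplicit false

open MeasureTheory ProbabilityTheory Filter Topology
open scoped ENNReal
open Pool.Agent.H95 Pool.Agent.H95.Cop Pool.Agent.H96.Cop

namespace Pool.Agent.H55.CU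

/-! ## A. Structure -/

/-- DEC: the first excursion below the interface with more than `L` sites. -/
def T_DEC : Prop := ∀ (K : PMF ℕ) (L L' : ℕ), L ≤ L' → ∀ (s : ℕ) (x : ℕ → ℝ),
  AA K L' s x ≤ AA K L s x + ∑ t ∈ Finset.range (s + 1), ∑ m ∈ Finset.Ioc L L',
    if t + m ≤ s then AA K L t x * (pk K m * 2⁻¹ * ex t (t + m) x) *
      AA K L' (s - t - m) (shift (t + m) x) else 0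

/-- CEL: the same in cells. -/
def T_CEL : Prop := ∀ (K : PMF ℕ) (k J : ℕ), 1 ≤ k → 1 ≤ J → ∀ g : ℝ≥0∞,
  (∀ m : ℕ, k * J < m → m ≤ k * (2 * J) → pk K m * 2⁻¹ ≤ g) → ∀ (a : ℕ) (x : ℕ → ℝ),
  PL K k (k * (2 * J)) a x ≤ PL K k (k * J) a x +
    ∑ b ∈ Finset.range (a + 1), ∑ j ∈ Finset.Icc J (2 * J),
      if b + j ≤ a then PL K k (k * J) b x * (g * ex ((b + 1) * k) ((b + j) * k) x) *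
        PL K k (k * (2 * J)) (a - b - j) (shift ((b + j) * k) x) else 0

/-- MPL: measurability and dependence. -/
def T_MPL : Prop := ∀ (K : PMF ℕ) (k L a : ℕ), Measurable (PL K k L a) ∧ Measurable (PQ K k L a) ∧
  DepLt ((a + 1) * k) (PL K k L a) ∧ DepLt ((a + 1) * k) (PQ K k L a)

/-- MOR: the recursion of the moments. -/
def T_MOR : Prop := ∀ (K : PMF ℕ) (k J : ℕ), 1 ≤ k → 1 ≤ J → ∀ g : ℝ≥0∞,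
  (∀ m : ℕ, k * J < m → m ≤ k * (2 * J) → pk K m * 2⁻¹ ≤ g) → ∀ (ν : Measure ℝ)
  [IsProbabilityMeasure ν] (θ : ℝ), 0 < θ → θ ≤ 1 → ∀ a : ℕ,
  ∫⁻ x, PL K k (k * (2 * J)) a x ^ θ ∂(iid ν) ≤ ∫⁻ x, PL K k (k * J) a x ^ θ ∂(iid ν) +
    ∑ b ∈ Finset.range (a + 1), ∑ j ∈ Finset.Icc J (2 * J),
      if b + j ≤ a then (∫⁻ x, PL K k (k * J) b x ^ θ ∂(iid ν)) *
        (g ^ θ * Mo ν θ ^ ((j - 1) * k)) *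
        ∫⁻ x, PL K k (k * (2 * J)) (a - b - j) x ^ θ ∂(iid ν) else 0

/-- JEN: Jensen between two exponents. -/
def T_JEN : Prop := ∀ {Ω : Type} [MeasurableSpace Ω] (P : Measure Ω) [IsProbabilityMeasure P]
  (f : Ω → ℝ≥0∞), AEMeasurable f P → ∀ s t : ℝ, 0 < s → s ≤ t →
  ∫⁻ x, f x ^ s ∂P ≤ (∫⁻ x, f x ^ t ∂P) ^ (s / t)

/-- COA: decomposition at the first excursion below the interface with more than `L` sites. -/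
def T_COA : Prop := ∀ (K : PMF ℕ), K 0 = 0 → ∀ (k L : ℕ), 1 ≤ k → k ≤ L → ∀ G : ℕ → ℝ≥0∞,
  (∀ j m : ℕ, 1 ≤ j → L < m → (j - 1) * k < m → m < (j + 1) * k → pk K m * 2⁻¹ ≤ G j) →
  ∀ n : ℕ, 1 ≤ n → ∀ x : ℕ → ℝ, Psi K k n x ≤ ∑ a ∈ Finset.range n, (PL K k L a x *
    (∑ b ∈ Finset.Ico (a + 1) n, G (b - a) * ex ((a + 1) * k) (b * k) x *
      Psi K k (n - b) (shift (b * k) x) + ex ((a + 1) * k) (n * k) x) + PQ K k L a x)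

/-- FRC: the fractional moment criterion. -/
def T_FRC : Prop := ∀ (K : PMF ℕ), K 0 = 0 → ∀ (ν : Measure ℝ) [IsProbabilityMeasure ν] (k L : ℕ),
  1 ≤ k → k ≤ L → ∀ G : ℕ → ℝ≥0∞,
  (∀ j m : ℕ, 1 ≤ j → L < m → (j - 1) * k < m → m < (j + 1) * k → pk K m * 2⁻¹ ≤ G j) →
  ∀ θ : ℝ, 0 < θ → θ ≤ 1 → Mo ν θ ≤ 1 → ∀ F F' Γ : ℝ≥0∞,
  (∀ n, ∑ a ∈ Finset.range n, ∫⁻ x, PL K k L a x ^ θ ∂(iid ν) ≤ F) →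
  (∀ n, ∑ a ∈ Finset.range n, ∫⁻ x, PQ K k L a x ^ θ ∂(iid ν) ≤ F') →
  (∀ n, ∑ j ∈ Finset.Ico 1 n, G j ^ θ * Mo ν θ ^ ((j - 1) * k) ≤ Γ) → F * Γ ≤ 2⁻¹ →
  ∀ n, 1 ≤ n → ∫⁻ x, Psi K k n x ^ θ ∂(iid ν) ≤ 2 * (F + F')

/-- AAL: the last excursion. -/
def T_AAL : Prop := ∀ (K : PMF ℕ) (L s : ℕ) (x : ℕ → ℝ), 1 ≤ s →
  ∑ t ∈ Finset.range s, AA K L t x * (pk K (s - t) * 2⁻¹) ≤ AA K L s x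

/-- PQB: the stretches without the last factor. -/
def T_PQB : Prop := ∀ (K : PMF ℕ) (ν : Measure ℝ) [IsProbabilityMeasure ν] (k L : ℕ), 1 ≤ k →
  (∀ n, k ≤ n → 0 < kk K n) → ∀ θ : ℝ, 0 < θ → Mo ν θ ≠ 0 → Mo ν θ ≠ ∞ →
  ∃ C : ℝ≥0∞, C ≠ ∞ ∧ ∀ a, ∫⁻ x, PQ K k L a x ^ θ ∂(iid ν) ≤
    C * ∫⁻ x, PL K k L (a + 2) x ^ θ ∂(iid ν)

/-! ## B. Renewal inequalities for real sequences -/

/-- SPL: sums of powers. -/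
def T_SPL : Prop := ∀ ε : ℝ, 0 < ε → ∀ n : ℕ,
  ∑ a ∈ Finset.Ico 1 n, (1 + (a : ℝ)) ^ (-(1 + ε)) ≤ 1 / ε ∧
  (1 ≤ n → ∑ a ∈ Finset.Ico 1 n, (1 + (a : ℝ)) ^ (-(1 + ε)) ≤ Real.log n)

/-- MAS: the mass. -/
def T_MAS : Prop := ∀ (J : ℕ) (g q : ℝ) (F X : ℕ → ℝ), 1 ≤ J → 0 ≤ g → ((J : ℝ) + 1) * g ≤ q →
  (∀ a, 0 ≤ F a) → (∀ a, 0 ≤ X a) → (∀ n, (∑ a ∈ Finset.range n, F a) * q ≤ 1 / 2) →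
  Rec J g F X → ∀ n, ∑ a ∈ Finset.range n, X a ≤ 2 * ∑ a ∈ Finset.range n, F a

/-- PW: the pointwise bound. -/
def T_PW : Prop := ∀ (J : ℕ) (g q β ε D M M' : ℝ) (F X d : ℕ → ℝ), 1 ≤ J → 0 ≤ g →
  ((J : ℝ) + 1) * g ≤ q → 0 < β → 0 < ε → ε ≤ 1 → 0 ≤ D → (∀ a, 0 ≤ F a) → (∀ a, 0 ≤ X a) →
  (∀ n, ∑ a ∈ Finset.range n, F a ≤ M) → M * q ≤ 1 / 2 →
  ∑ a ∈ Finset.range (8 * J + 1), F a ≤ M' → Rec J g F X →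
  (∀ a, 1 ≤ a → F a ≤ d a * (β * (1 + (a : ℝ)) ^ (-(1 + ε)))) →
  (∀ a, 1 ≤ a → d a + (36 * q * M * D +
    if a ≤ 8 * J then 2 * g * M' ^ 2 / β * (1 + (a : ℝ)) ^ (1 + ε) else 0) ≤ D) →
  X 0 ≤ F 0 ∧ ∀ a, 1 ≤ a → X a ≤ (d a + (36 * q * M * D +
    if a ≤ 8 * J then 2 * g * M' ^ 2 / β * (1 + (a : ℝ)) ^ (1 + ε) else 0)) *
      (β * (1 + (a : ℝ)) ^ (-(1 + ε)))

/-- CNV: from increments of powers to powers of increments. -/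
def T_CNV : Prop := ∀ d r D θ : ℝ, 1 ≤ d → 0 ≤ r → d + 4 * r ≤ D → 1 / 2 ≤ θ → θ ≤ 1 →
  D ^ (1 - θ) ≤ 2 → d ^ θ + r ≤ (d + 4 * r) ^ θ

/-- BKP: the coefficients. -/
def T_BKP : Prop := ∀ (c1 : ℝ) (s a : ℕ), 0 ≤ c1 → 1 ≤ a → 0 ≤ rr c1 s a ∧
  2 ^ 21 ≤ dd c1 s a ∧ dd c1 s a ≤ 2 ^ 21 + 4 * c1 * 2 ^ s + 86400 ∧
  dd c1 (s + 1) a = dd c1 s a + 4 * rr c1 s a

/-! ## C. The base: mean values -/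

/-- UNR: real masses. -/
def T_UNR : Prop := ∀ (K : PMF ℕ) (k : ℕ) (b : ℝ) (a : ℕ),
  Vn (kh K k (ENNReal.ofReal (Real.exp b))) k a = ENNReal.ofReal (VR (khr K k b) k a)

/-- UDC: the first excursion with more than `k` sites. -/
def T_UDC : Prop := ∀ (K : PMF ℕ) (k : ℕ) (b : ℝ) (s : ℕ),
  uu (khr K k b) s ≤ uu (k0 K k b) s + ∑ t ∈ Finset.range (s + 1), ∑ m ∈ Finset.Ioc k s,
    if t + m ≤ s then uu (k0 K k b) t * (kk K m / 2) * uu (khr K k b) (s - t - m) else 0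

/-- VDC: the same in cells. -/
def T_VDC : Prop := ∀ (K : PMF ℕ) (k : ℕ) (b : ℝ), 1 ≤ k → ∀ G : ℕ → ℝ, (∀ j, 0 ≤ G j) →
  (∀ j m : ℕ, 1 ≤ j → k < m → (j - 1) * k < m → m < (j + 1) * k → kk K m / 2 ≤ G j) → ∀ a,
  VR (khr K k b) k a ≤ VR (k0 K k b) k a + ∑ i ∈ Finset.range (a + 1), ∑ j ∈ Finset.Icc 1 a,
    if i + j ≤ a then VR (k0 K k b) k i * G j * VR (khr K k b) k (a - i - j) else 0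

/-- UMS: mass and first moment of a renewal function. -/
def T_UMS : Prop := ∀ (κ w : ℕ → ℝ) (Q m1 : ℝ), (∀ n, 0 ≤ κ n) → (∀ n, 0 ≤ w n) → w 0 ≤ 1 →
  (∀ m n, w (m + n) ≤ w m * w n) → 0 < Q →
  (∀ N, ∑ j ∈ Finset.range N, κ (j + 1) * w (j + 1) ≤ 1 - Q) →
  (∀ N, ∑ s ∈ Finset.range N, uu κ s * w s ≤ 1 / Q) ∧
  ((∀ N, ∑ j ∈ Finset.range N, ((j : ℝ) + 1) * (κ (j + 1) * w (j + 1)) ≤ m1) →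
    ∀ N, ∑ s ∈ Finset.range N, (s : ℝ) * (uu κ s * w s) ≤ m1 / Q ^ 2)

/-- VMS: masses between cells. -/
def T_VMS : Prop := ∀ (κ : ℕ → ℝ) (k : ℕ), (∀ n, 0 ≤ κ n) → 1 ≤ k →
  (∀ Q : ℝ, 0 < Q → (∀ N, ∑ j ∈ Finset.range N, κ (j + 1) ≤ 1 - Q) →
    ∀ n, ∑ a ∈ Finset.range n, VR κ k a ≤ k / Q) ∧
  (∀ Q m1 : ℝ, 0 < Q →
    (∀ N, ∑ j ∈ Finset.range N, κ (j + 1) * Real.exp (((j : ℝ) + 1) / k) ≤ 1 - Q) →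
    (∀ N, ∑ j ∈ Finset.range N, ((j : ℝ) + 1) * (κ (j + 1) * Real.exp (((j : ℝ) + 1) / k)) ≤ m1) →
    ∀ a : ℕ, 1 ≤ a → VR κ k a ≤ 3 * m1 / Q ^ 2 * Real.exp (-(a : ℝ)))

/-- KME: the mean weights of the small excursions. -/
def T_KME : Prop := ∀ (K : PMF ℕ), K 0 = 0 → ∀ (α c : ℝ) (n0 k : ℕ) (b : ℝ), 0 < α →
  α ≤ 1 / 2 ^ 12 → 0 < c → KB K α c n0 → 1 ≤ k → n0 ≤ k → (n0 : ℝ) ≤ c * (k : ℝ) ^ (1 - α) →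
  0 ≤ b → b * k ≤ 1 / 2 → ∀ N : ℕ,
  ∑ j ∈ Finset.range N, k0 K k b (j + 1) ≤ 1 - 13 / 16 * (c / α) * (k : ℝ) ^ (-α) ∧
  ∑ j ∈ Finset.range N, k0 K k b (j + 1) * Real.exp (((j : ℝ) + 1) / k) ≤
    1 - 3 / 4 * (c / α) * (k : ℝ) ^ (-α) ∧
  ∑ j ∈ Finset.range N, ((j : ℝ) + 1) * (k0 K k b (j + 1) * Real.exp (((j : ℝ) + 1) / k)) ≤
    23 * c * (k : ℝ) ^ (1 - α)

/-- GAS: the sum of the weights `ga`. -/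
def T_GAS : Prop := ∀ α : ℝ, 0 < α → α ≤ 1 / 2 ^ 12 → (∀ j, 0 ≤ ga α j) ∧
  (∀ n : ℕ, ∑ j ∈ Finset.Icc 1 n, ga α j ≤ 9 / 16 * (2 + 1 / α)) ∧
  ∀ a j : ℕ, 1 ≤ j → 1 ≤ a → a < 16 * j → ga α j ≤ 37 * (1 + (a : ℝ)) ^ (-(1 + α))

/-- VBA: the base, masses. -/
def T_VBA : Prop := ∀ (α : ℝ) (v0 v : ℕ → ℝ), 0 < α → α ≤ 1 / 2 ^ 12 → (∀ a, 0 ≤ v0 a) →
  (∀ a, 0 ≤ v a) → (∀ n, ∑ a ∈ Finset.range n, v0 a ≤ 16 / 13 * α) →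
  (∀ a, v a ≤ v0 a + ∑ i ∈ Finset.range (a + 1), ∑ j ∈ Finset.Icc 1 a,
    if i + j ≤ a then v0 i * ga α j * v (a - i - j) else 0) →
  (∀ n, ∑ a ∈ Finset.range n, v a ≤ 5 * α) ∧ v 0 ≤ 2 * α

/-- VBP: the base, pointwise. -/
def T_VBP : Prop := ∀ (α : ℝ) (v0 v : ℕ → ℝ), 0 < α → α ≤ 1 / 2 ^ 12 → (∀ a, 0 ≤ v0 a) →
  (∀ a, 0 ≤ v a) → (∀ n, ∑ a ∈ Finset.range n, v0 a ≤ 16 / 13 * α) →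
  (∀ a : ℕ, 1 ≤ a → v0 a ≤ 123 * α ^ 2 * Real.exp (-(a : ℝ))) →
  (∀ a, v a ≤ v0 a + ∑ i ∈ Finset.range (a + 1), ∑ j ∈ Finset.Icc 1 a,
    if i + j ≤ a then v0 i * ga α j * v (a - i - j) else 0) →
  ∀ a : ℕ, 1 ≤ a → v a ≤ 2 ^ 19 * (α ^ 2 * (1 + (a : ℝ)) ^ (-(1 + α)))

/-- BS0: the base. -/
def T_BS0 : Prop := ∀ (K : PMF ℕ), K 0 = 0 → ∀ (ν : Measure ℝ) [IsProbabilityMeasure ν] (α c : ℝ)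
  (n0 k : ℕ) (b : ℝ), 0 < α → α ≤ 1 / 2 ^ 50 → 0 < c → KB K α c n0 → 1 ≤ k → n0 ≤ k →
  (n0 : ℝ) ≤ c * (k : ℝ) ^ (1 - α) → 0 ≤ b → b * k ≤ 1 / 2 →
  Mo ν 1 ≤ ENNReal.ofReal (Real.exp b) → HS K ν α c k 0

/-! ## D. The step -/

/-- THP: the exponents. -/
def T_THP : Prop := ∀ (α : ℝ) (s : ℕ), 0 < α → α ≤ 1 / 4 → 1 / 2 ≤ th α s ∧ th α s ≤ 1 ∧
  th α (s + 1) ≤ th α s ∧ (1 + α) * th α s = 1 + α / 2 ^ s ∧ 1 - th α s ≤ α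

/-- AEX: powers with exponents close to one. -/
def T_AEX : Prop := ∀ α θ : ℝ, 0 < α → α ≤ 1 / 2 ^ 50 → θ ≤ 1 → 1 - θ ≤ α →
  α ^ 2 ≤ α ^ (2 * θ) ∧ α ^ (2 * θ) ≤ 2 * α ^ 2 ∧ (6 * α) ^ θ ≤ 9 * α ∧
  ((2 : ℝ) ^ 23) ^ (1 - θ) ≤ 2 ∧ (1 / α) ^ α ≤ 2 ∧ α * Real.log (1 / α) ≤ 1 / 2 ^ 24

/-- NUF: the masses of the old stretches. -/
def T_NUF : Prop := ∀ (α : ℝ) (s : ℕ), 0 < α → α ≤ 1 / 2 ^ 50 → α * 2 ^ (s + 1) ≤ 1 / 2 ^ 37 →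
  (∀ a, 0 ≤ FF α s a) ∧ FF α s 0 = (6 * α) ^ th α (s + 1) ∧
  (∀ a, 1 ≤ a → dd (cc α) s a + rr (cc α) s a ≤ 2 ^ 23 ∧ dd (cc α) (s + 1) a ≤ 2 ^ 23 ∧
    FF α s a = dd (cc α) s a ^ th α (s + 1) *
      (α ^ (2 * th α (s + 1)) * (1 + (a : ℝ)) ^ (-(1 + α / 2 ^ (s + 1))))) ∧
  (∀ n, ∑ a ∈ Finset.range n, FF α s a ≤ 5 * 2 ^ 23 * α * 2 ^ s) ∧
  ∑ a ∈ Finset.range (8 * 2 ^ s + 1), FF α s a ≤ 10 * α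

/-- NUR: the increments. -/
def T_NUR : Prop := ∀ (α : ℝ) (s a : ℕ), 0 < α → α ≤ 1 / 2 ^ 50 → α * 2 ^ (s + 1) ≤ 1 / 2 ^ 37 →
  1 ≤ a → 36 * 6 * (5 * 2 ^ 23 * α * 2 ^ s) * 2 ^ 23 + (if a ≤ 8 * 2 ^ s then
    2 * (3 / 2 ^ s) * (10 * α) ^ 2 / α ^ (2 * th α (s + 1)) *
      (1 + (a : ℝ)) ^ (1 + α / 2 ^ (s + 1)) else 0) ≤ rr (cc α) s a

/-- STR: the step for real sequences. -/
def T_STR : Prop := ∀ (α : ℝ) (s : ℕ) (X : ℕ → ℝ), 0 < α → α ≤ 1 / 2 ^ 50 →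
  α * 2 ^ (s + 1) ≤ 1 / 2 ^ 37 → (∀ a, 0 ≤ X a) → Rec (2 ^ s) (3 / 2 ^ s) (FF α s) X →
  ∀ a, X a ≤ (dd (cc α) (s + 1) a * nn α a) ^ th α (s + 1)

/-- STX: the real sequence of the new moments. -/
def T_STX : Prop := ∀ (K : PMF ℕ) (k J : ℕ), 1 ≤ k → 1 ≤ J → ∀ g : ℝ≥0∞,
  (∀ m : ℕ, k * J < m → m ≤ k * (2 * J) → pk K m * 2⁻¹ ≤ g) → ∀ (ν : Measure ℝ)
  [IsProbabilityMeasure ν] (θ y γ : ℝ) (F : ℕ → ℝ), 0 < θ → θ ≤ 1 → 0 < y → 0 ≤ γ →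
  (∀ a, 0 ≤ F a) → (∀ a, ∫⁻ x, PL K k (k * J) a x ^ θ ∂(iid ν) ≤ ENNReal.ofReal (y * F a)) →
  (∀ j, J ≤ j → j ≤ 2 * J → g ^ θ * Mo ν θ ^ ((j - 1) * k) ≤ ENNReal.ofReal (γ / y)) →
  ∃ X : ℕ → ℝ, (∀ a, 0 ≤ X a) ∧ Rec J γ F X ∧
    ∀ a, ∫⁻ x, PL K k (k * (2 * J)) a x ^ θ ∂(iid ν) = ENNReal.ofReal (y * X a)

/-- GSC: the weight of a long excursion. -/
def T_GSC : Prop := ∀ (K : PMF ℕ) (α c : ℝ) (n0 : ℕ), 0 < α → 0 < c → KB K α c n0 →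
  (∀ M m : ℕ, 1 ≤ M → n0 ≤ M → M < m → kk K m / 2 ≤ 9 / 16 * c * (M : ℝ) ^ (-(1 + α)) ∧
    pk K m * 2⁻¹ ≤ ENNReal.ofReal (9 / 16 * c * (M : ℝ) ^ (-(1 + α)))) ∧
  ∀ (k J : ℕ) (θ : ℝ), 1 ≤ k → 1 ≤ J → 0 < θ → 1 ≤ (1 + α) * θ →
    (9 / 16 * c * ((k * J : ℕ) : ℝ) ^ (-(1 + α))) ^ θ ≤ 1 / J / ZZ α c k ^ θ

/-- STP: the step. -/
def T_STP : Prop := ∀ (K : PMF ℕ) (ν : Measure ℝ) [IsProbabilityMeasure ν] (α c : ℝ)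
  (n0 k s : ℕ), 0 < α → α ≤ 1 / 2 ^ 50 → 0 < c → KB K α c n0 → 1 ≤ k → n0 ≤ k →
  α * 2 ^ (s + 1) ≤ 1 / 2 ^ 37 → (∀ n : ℕ, n ≤ 2 * 2 ^ s * k → Mo ν (th α (s + 1)) ^ n ≤ 3) →
  HS K ν α c k s → HS K ν α c k (s + 1)

/-- ITR: all scales. -/
def T_ITR : Prop := ∀ (K : PMF ℕ) (ν : Measure ℝ) [IsProbabilityMeasure ν] (α c : ℝ)
  (n0 k S : ℕ), 0 < α → α ≤ 1 / 2 ^ 50 → 0 < c → KB K α c n0 → 1 ≤ k → n0 ≤ k →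
  α * 2 ^ S ≤ 1 / 2 ^ 37 →
  (∀ s < S, ∀ n : ℕ, n ≤ 2 * 2 ^ s * k → Mo ν (th α (s + 1)) ^ n ≤ 3) →
  HS K ν α c k 0 → HS K ν α c k S

/-! ## E. The end -/

/-- bound of the weight of an excursion below the interface of more than `2 ^ S` cells -/
noncomputable def GS (α c : ℝ) (k S j : ℕ) : ℝ≥0∞ :=
  if j < 2 ^ S then 0 else ENNReal.ofReal (9 / 16 * c * (((j - 1) * k : ℕ) : ℝ) ^ (-(1 + α)))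

/-- FSA: the sum of the moments of the stretches. -/
def T_FSA : Prop := ∀ (K : PMF ℕ) (ν : Measure ℝ) [IsProbabilityMeasure ν] (α c : ℝ) (k S : ℕ),
  0 < α → α ≤ 1 / 2 ^ 50 → 0 < c → 1 ≤ k → α * 2 ^ S ≤ 1 / 2 ^ 37 → HS K ν α c k S →
  ∀ n, ∑ a ∈ Finset.range n, ∫⁻ x, PL K k (k * 2 ^ S) a x ^ th α S ∂(iid ν) ≤
    ENNReal.ofReal (ZZ α c k ^ th α S / 4)

/-- FSB: the sum over the long excursions below the interface. -/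
def T_FSB : Prop := ∀ (K : PMF ℕ) (ν : Measure ℝ) [IsProbabilityMeasure ν] (α c : ℝ)
  (n0 k S : ℕ), 0 < α → α ≤ 1 / 2 ^ 50 → 0 < c → KB K α c n0 → 1 ≤ k → n0 ≤ k →
  1 / 2 ^ 38 ≤ α * 2 ^ S → Mo ν (th α S) ^ k ≤ ENNReal.ofReal (Real.exp (-(2 ^ 40 * α))) →
  (∀ j m : ℕ, 1 ≤ j → k * 2 ^ S < m → (j - 1) * k < m → m < (j + 1) * k →
    pk K m * 2⁻¹ ≤ GS α c k S j) ∧
  ∀ n, ∑ j ∈ Finset.Ico 1 n, GS α c k S j ^ th α S * Mo ν (th α S) ^ ((j - 1) * k) ≤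
    ENNReal.ofReal (1 / ZZ α c k ^ th α S)

/-- NEG: the free energy is not positive. -/
def T_NEG : Prop := ∀ (K : PMF ℕ), K 0 = 0 → ∀ (α c : ℝ) (n0 : ℕ), 0 < α → α ≤ 1 / 2 ^ 50 →
  0 < c → KB K α c n0 → 1 ≤ n0 → ∀ (μ : Measure ℝ) [IsProbabilityMeasure μ],
  (∀ t : ℝ, Integrable (fun z => Real.exp (t * z)) μ) → ∀ (lam h b : ℝ) (k S : ℕ), 1 ≤ k →
  n0 ≤ k → (n0 : ℝ) ≤ c * (k : ℝ) ^ (1 - α) → 1 / 2 ^ 38 ≤ α * 2 ^ S → α * 2 ^ S ≤ 1 / 2 ^ 37 →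
  0 ≤ b → b * k ≤ 1 / 2 → Mo (chargeLaw μ lam h) 1 ≤ ENNReal.ofReal (Real.exp b) →
  (∀ s < S, ∀ n : ℕ, n ≤ 2 * 2 ^ s * k → Mo (chargeLaw μ lam h) (th α (s + 1)) ^ n ≤ 3) →
  Mo (chargeLaw μ lam h) (th α S) ^ k ≤ ENNReal.ofReal (Real.exp (-(2 ^ 40 * α))) →
  ∀ f : ℝ, HasFreeEnergy K μ lam h f → f ≤ 0

/-- PAR: the moments of the charges. -/
def T_PAR : Prop := ∀ (μ : Measure ℝ) [IsProbabilityMeasure μ],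
  (∀ t : ℝ, Integrable (fun z => Real.exp (t * z)) μ) → ∫ z, z ∂μ = 0 → ∫ z, z ^ 2 ∂μ = 1 →
  ∀ (α : ℝ) (S : ℕ), 0 < α → α ≤ 1 / 2 ^ 50 → 1 / 2 ^ 38 ≤ α * 2 ^ S →
  ∀ᶠ lam in 𝓝[>] (0 : ℝ), ∀ (h : ℝ) (k : ℕ), (1 + 2 ^ 46 * α ^ 2) / (1 + α) * lam ≤ h →
    k = ⌈1 / (8 * α * lam ^ 2)⌉₊ → ∃ b : ℝ, 0 ≤ b ∧ b * k ≤ 1 / 2 ∧
    Mo (chargeLaw μ lam h) 1 ≤ ENNReal.ofReal (Real.exp b) ∧
    (∀ s < S, ∀ n : ℕ, n ≤ 2 * 2 ^ s * k → Mo (chargeLaw μ lam h) (th α (s + 1)) ^ n ≤ 3) ∧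
    Mo (chargeLaw μ lam h) (th α S) ^ k ≤ ENNReal.ofReal (Real.exp (-(2 ^ 40 * α)))

end Pool.Agent.H55.CU
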