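import Pool.Agent.H32.CU.AAL
import Pool.Agent.H60.CU.AEX
import Pool.Agent.H11.CU.BKP
import Pool.Agent.H74.CU.BS0
import Pool.Agent.H68.CU.CEL
import Pool.Agent.H89.CU.CNV
import Pool.Agent.H19.CU.COA
import Pool.Agent.H14.CU.DEC
import Pool.Agent.H32.CU.FRC
import Pool.Agent.H23.CU.FSA
import Pool.Agent.H65.CU.FSB
import Pool.Agent.H53.CU.GAS
import Pool.Agent.H61.CU.GSC
import Pool.Agent.H17.CU.ITR
import Pool.Agent.H19.CU.JEN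
import Pool.Agent.H4.CU.KME
import Pool.Agent.H12.CU.MAS
import Pool.Agent.H19.CU.MOR
import Pool.Agent.H68.CU.MPL
import Pool.Agent.H36.CU.NEG
import Pool.Agent.H86.CU.NUF
import Pool.Agent.H17.CU.NUR
import Pool.Agent.H60.CU.PAR
import Pool.Agent.H40.CU.PQB
import Pool.Agent.H20.CU.PW
import Pool.Agent.H32.CU.SPL
import Pool.Agent.H53.CU.STP
import Pool.Agent.H14.CU.STR
import Pool.Agent.H36.CU.STX
import Pool.Agent.H17.CU.THP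
import Pool.Agent.H20.CU.UDC
import Pool.Agent.H13.CU.UMS
import Pool.Agent.H65.CU.UNR
import Pool.Agent.H86.CU.VBA
import Pool.Agent.H4.CU.VBP
import Pool.Agent.H63.CU.VDC
import Pool.Agent.H67.CU.VMS

/-!
# Closed versions of all targets (helper55)
-/

set_option autoImplicit false

namespace Pool.Agent.H55.CU

theorem c_AAL : T_AAL :=
  Pool.Agent.H32.CU.pf_AAL

theorem c_AEX : T_AEX :=
  Pool.Agent.H60.CU.pf_AEX

theorem c_BKP : T_BKP :=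
  Pool.Agent.H11.CU.pf_BKP

theorem c_CNV : T_CNV :=
  Pool.Agent.H89.CU.pf_CNV

theorem c_COA : T_COA :=
  Pool.Agent.H19.CU.pf_COA

theorem c_DEC : T_DEC :=
  Pool.Agent.H14.CU.pf_DEC

theorem c_GAS : T_GAS :=
  Pool.Agent.H53.CU.pf_GAS

theorem c_GSC : T_GSC :=
  Pool.Agent.H61.CU.pf_GSC

theorem c_JEN : T_JEN :=
  Pool.Agent.H19.CU.pf_JEN

theorem c_KME : T_KME :=
  Pool.Agent.H4.CU.pf_KME

theorem c_MAS : T_MAS :=
  Pool.Agent.H12.CU.pf_MAS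

theorem c_MPL : T_MPL :=
  Pool.Agent.H68.CU.pf_MPL

theorem c_PQB : T_PQB :=
  Pool.Agent.H40.CU.pf_PQB c_AAL c_MPL

theorem c_PW : T_PW :=
  Pool.Agent.H20.CU.pf_PW c_MAS

theorem c_SPL : T_SPL :=
  Pool.Agent.H32.CU.pf_SPL

theorem c_THP : T_THP :=
  Pool.Agent.H17.CU.pf_THP

theorem c_UDC : T_UDC :=
  Pool.Agent.H20.CU.pf_UDC

theorem c_UMS : T_UMS :=
  Pool.Agent.H13.CU.pf_UMS

theorem c_UNR : T_UNR :=
  Pool.Agent.H65.CU.pf_UNR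

theorem c_VBA : T_VBA :=
  Pool.Agent.H86.CU.pf_VBA c_GAS

theorem c_VBP : T_VBP :=
  Pool.Agent.H4.CU.pf_VBP c_GAS c_VBA

theorem c_VDC : T_VDC :=
  Pool.Agent.H63.CU.pf_VDC c_UDC

theorem c_VMS : T_VMS :=
  Pool.Agent.H67.CU.pf_VMS c_UMS

theorem c_BS0 : T_BS0 :=
  Pool.Agent.H74.CU.pf_BS0 c_UNR c_VDC c_VMS c_KME c_VBA c_VBP c_GAS

theorem c_CEL : T_CEL :=
  Pool.Agent.H68.CU.pf_CEL c_DEC

theorem c_FRC : T_FRC :=
  Pool.Agent.H32.CU.pf_FRC c_COA c_MPL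

theorem c_FSA : T_FSA :=
  Pool.Agent.H23.CU.pf_FSA c_SPL c_BKP c_THP c_AEX

theorem c_FSB : T_FSB :=
  Pool.Agent.H65.CU.pf_FSB c_GSC c_THP

theorem c_MOR : T_MOR :=
  Pool.Agent.H19.CU.pf_MOR c_CEL c_MPL

theorem c_NUF : T_NUF :=
  Pool.Agent.H86.CU.pf_NUF c_SPL c_BKP c_THP c_AEX

theorem c_NUR : T_NUR :=
  Pool.Agent.H17.CU.pf_NUR c_THP c_AEX

theorem c_PAR : T_PAR :=
  Pool.Agent.H60.CU.pf_PAR c_THP

theorem c_STR : T_STR :=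
  Pool.Agent.H14.CU.pf_STR c_PW c_CNV c_BKP c_THP c_AEX c_NUF c_NUR

theorem c_STX : T_STX :=
  Pool.Agent.H36.CU.pf_STX c_MOR c_MPL

theorem c_STP : T_STP :=
  Pool.Agent.H53.CU.pf_STP c_JEN c_MPL c_THP c_BKP c_GSC c_STX c_STR c_NUF

theorem c_ITR : T_ITR :=
  Pool.Agent.H17.CU.pf_ITR c_STP

theorem c_NEG : T_NEG :=
  Pool.Agent.H36.CU.pf_NEG c_BS0 c_ITR c_FSA c_FSB c_PQB c_FRC c_THP

end Pool.Agent.H55.CU
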