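import Pool.Agent.H96.Cop.Slope

/-!
# The sharp upper bound of the slope of the copolymer critical curve: definitions (helper55)

Problem `MP_65efe8_pr`. Multi-scale fractional moments: the excursions below the interface of about
`2^s` cells are treated with the exponent `th α (s+1)`, close to `1/(1+α)`. Functions `ex`, `pk`, `AA`,
`Psi`, `Wn`, `Mo`, `khr` are those of `Pool.Agent.H96.Cop`; `uu`, `kk`, `tailK`, `H` those of
`Pool.Agent.H95.Cop`.
-/

set_option autoImplicit false

open MeasureTheory ProbabilityTheory Filter Topology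
open scoped ENNReal
open Pool.Agent.H95 Pool.Agent.H95.Cop Pool.Agent.H96.Cop

namespace Pool.Agent.H55.CU

/-- stretch from cell `0` to cell `a` (cells of `k` sites) in which the excursions below the interface
have at most `L` sites -/
noncomputable def PL (K : PMF ℕ) (k L a : ℕ) (x : ℕ → ℝ) : ℝ≥0∞ :=
  ∑ e ∈ Finset.range k, ∑ r ∈ Finset.range k, (if e ≤ a * k + r then
    ex 0 e x * AA K L (a * k + r - e) (shift e x) * ex (a * k + r) ((a + 1) * k) x else 0)

/-- the same without the last factor -/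
noncomputable def PQ (K : PMF ℕ) (k L a : ℕ) (x : ℕ → ℝ) : ℝ≥0∞ :=
  ∑ e ∈ Finset.range k, ∑ r ∈ Finset.range k, (if e ≤ a * k + r then
    ex 0 e x * AA K L (a * k + r - e) (shift e x) else 0)

/-- mean weights of the excursions of at most `k` sites -/
noncomputable def k0 (K : PMF ℕ) (k : ℕ) (b : ℝ) (n : ℕ) : ℝ := if n ≤ k then khr K k b n else 0

/-- mass between the cells `0` and `a` -/
noncomputable def VR (κ : ℕ → ℝ) (k a : ℕ) : ℝ :=
  ∑ e ∈ Finset.range k, ∑ r ∈ Finset.range k, (if e ≤ a * k + r then uu κ (a * k + r - e) else 0)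

/-- weight of a long excursion above the interface over `j` cells -/
noncomputable def ga (α : ℝ) (j : ℕ) : ℝ := 9 / 16 * ((max (j - 1) 1 : ℕ) : ℝ) ^ (-(1 + α))

/-- the exponents -/
noncomputable def th (α : ℝ) (s : ℕ) : ℝ := (1 + α / 2 ^ s) / (1 + α)

/-- the shape of the moments -/
noncomputable def nn (α : ℝ) (a : ℕ) : ℝ := if a = 0 then α else α ^ 2 * (1 + (a : ℝ)) ^ (-(1 + α))

/-- increment of the coefficients -/
noncomputable def rr (c1 : ℝ) (s a : ℕ) : ℝ :=
  c1 * 2 ^ s + if a ≤ 8 * 2 ^ s then 1200 * (1 + (a : ℝ)) / 2 ^ s else 0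

/-- the coefficients -/
noncomputable def dd (c1 : ℝ) (s a : ℕ) : ℝ :=
  if a = 0 then 6 else 2 ^ 21 + 4 * ∑ i ∈ Finset.range s, rr c1 i a

/-- the constant in the increments -/
noncomputable def cc (α : ℝ) : ℝ := 1080 * 2 ^ 46 * α

/-- the unit -/
noncomputable def ZZ (α c : ℝ) (k : ℕ) : ℝ := (k : ℝ) ^ (1 + α) / c

/-- the fractional moments of the old stretches at the new exponent -/
noncomputable def FF (α : ℝ) (s a : ℕ) : ℝ := (dd (cc α) s a * nn α a) ^ th α (s + 1)

/-- renewal inequality for the excursions over `J, ..., 2J` cells with weight `g` -/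
def Rec (J : ℕ) (g : ℝ) (F X : ℕ → ℝ) : Prop := ∀ a, X a ≤ F a +
  ∑ b ∈ Finset.range (a + 1), ∑ j ∈ Finset.Icc J (2 * J),
    if b + j ≤ a then F b * g * X (a - b - j) else 0

/-- the moment bound at the scale `s` -/
def HS (K : PMF ℕ) (ν : Measure ℝ) (α c : ℝ) (k s : ℕ) : Prop := ∀ a,
  ∫⁻ x, PL K k (k * 2 ^ s) a x ^ th α s ∂(iid ν) ≤
    ENNReal.ofReal ((ZZ α c k * (dd (cc α) s a * nn α a)) ^ th α s)

/-- asymptotics of the inter-arrival law, up to the factors `7/8` and `9/8` -/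
def KB (K : PMF ℕ) (α c : ℝ) (n0 : ℕ) : Prop := ∀ n : ℕ, n0 ≤ n →
  7 / 8 * c * (n : ℝ) ^ (-(1 + α)) ≤ kk K n ∧ kk K n ≤ 9 / 8 * c * (n : ℝ) ^ (-(1 + α))

end Pool.Agent.H55.CU
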