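import Pool.Agent.H55.CU.Targets

/-!
# The sharp upper bound of the slope of the copolymer critical curve: assembly (helper55)
-/

set_option autoImplicit false

open MeasureTheory ProbabilityTheory Filter Topology
open scoped ENNReal
open Pool.Agent.H95 Pool.Agent.H95.Cop Pool.Agent.H96.Cop

namespace Pool.Agent.H55.CU

lemma exists_KB (K : PMF ℕ) (α cK : ℝ) (hcK : 0 < cK)
    (hK : Tendsto (fun n : ℕ => (K n).toReal * (n : ℝ) ^ (1 + α)) atTop (𝓝 cK)) :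
    ∃ n0 : ℕ, 1 ≤ n0 ∧ KB K α cK n0 := by
  have h1 : ∀ᶠ n : ℕ in atTop, 7 / 8 * cK < (K n).toReal * (n : ℝ) ^ (1 + α) :=
    hK.eventually (lt_mem_nhds (by linarith))
  have h2 : ∀ᶠ n : ℕ in atTop, (K n).toReal * (n : ℝ) ^ (1 + α) < 9 / 8 * cK :=
    hK.eventually (gt_mem_nhds (by linarith))
  obtain ⟨n1, hn1⟩ := eventually_atTop.mp (h1.and h2)
  refine ⟨max n1 1, le_max_right _ _, fun n hn => ?_⟩
  have hn0 : (0 : ℝ) < n := by
    have : 1 ≤ n := (le_max_right _ _).trans hn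
    exact_mod_cast this
  have h3 : 0 < (n : ℝ) ^ (1 + α) := Real.rpow_pos_of_pos hn0 _
  have h4 := hn1 n ((le_max_left _ _).trans hn)
  rw [Real.rpow_neg hn0.le, ← div_eq_mul_inv, ← div_eq_mul_inv, div_le_iff₀ h3, le_div_iff₀ h3]
  exact ⟨h4.1.le, h4.2.le⟩

lemma small_case (hNEG : T_NEG) (hPAR : T_PAR) (α : ℝ) (hα : 0 < α) (hα1 : α ≤ 1 / 2 ^ 50)
    (K : PMF ℕ) (hK0 : K 0 = 0) (cK : ℝ) (hcK : 0 < cK)
    (hK : Tendsto (fun n : ℕ => (K n).toReal * (n : ℝ) ^ (1 + α)) atTop (𝓝 cK))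
    (μ : Measure ℝ) [IsProbabilityMeasure μ]
    (hexp : ∀ t : ℝ, Integrable (fun z => Real.exp (t * z)) μ)
    (hmean : ∫ z, z ∂μ = 0) (hvar : ∫ z, z ^ 2 ∂μ = 1) :
    ∀ᶠ lam in 𝓝[>] (0 : ℝ), criticalCurve K μ lam / lam ≤ (1 + 2 ^ 46 * α ^ 2) / (1 + α) := by
  obtain ⟨n0, hn1, hKB⟩ := exists_KB K α cK hcK hK
  have hα2 : α < 1 := lt_of_le_of_lt hα1 (by norm_num)
  obtain ⟨S, hS1, hS2⟩ := exists_nat_pow_near (x := 1 / 2 ^ 37 / α) (y := (2 : ℝ))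
    (by rw [le_div_iff₀ hα, one_mul]; exact hα1.trans (by norm_num)) (by norm_num)
  have hS3 : α * 2 ^ S ≤ 1 / 2 ^ 37 := by
    rw [le_div_iff₀ hα] at hS1
    linarith
  have hS4 : 1 / 2 ^ 38 ≤ α * 2 ^ S := by
    rw [div_lt_iff₀ hα, pow_succ (2 : ℝ) S] at hS2
    have : (1 : ℝ) / 2 ^ 38 = (1 / 2 ^ 37) / 2 := by norm_num
    rw [this]
    linarith
  have hpar := hPAR μ hexp hmean hvar α S hα hα1 hS4
  have hk : Tendsto (fun lam : ℝ => ⌈1 / (8 * α * lam ^ 2)⌉₊) (𝓝[>] (0 : ℝ)) atTop := by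
    have h1 : Tendsto (fun lam : ℝ => 1 / (8 * α * lam ^ 2)) (𝓝[>] (0 : ℝ)) atTop := by
      have h2 : Tendsto (fun lam : ℝ => 8 * α * lam ^ 2) (𝓝[>] (0 : ℝ)) (𝓝[>] (0 : ℝ)) := by
        rw [tendsto_nhdsWithin_iff]
        refine ⟨?_, ?_⟩
        · have : Tendsto (fun lam : ℝ => 8 * α * lam ^ 2) (𝓝 (0 : ℝ)) (𝓝 (8 * α * 0 ^ 2)) :=
            ((continuous_pow 2).const_mul _).tendsto 0
          rw [zero_pow two_ne_zero, mul_zero] at this
          exact this.mono_left nhdsWithin_le_nhds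
        · filter_upwards [self_mem_nhdsWithin] with lam hlam
          have hlam1 : 0 < lam := hlam
          have : 0 < 8 * α * lam ^ 2 := by positivity
          exact this
      simp_rw [one_div]
      exact tendsto_inv_nhdsGT_zero.comp h2
    exact tendsto_nat_ceil_atTop.comp h1
  have e3 : ∀ᶠ lam in 𝓝[>] (0 : ℝ), n0 ≤ ⌈1 / (8 * α * lam ^ 2)⌉₊ :=
    hk.eventually (eventually_ge_atTop n0)
  have e4 : ∀ᶠ lam in 𝓝[>] (0 : ℝ),
      (n0 : ℝ) ≤ cK * ((⌈1 / (8 * α * lam ^ 2)⌉₊ : ℕ) : ℝ) ^ (1 - α) := by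
    have h1 : Tendsto (fun n : ℕ => cK * ((n : ℕ) : ℝ) ^ (1 - α)) atTop atTop :=
      ((tendsto_rpow_atTop (by linarith : 0 < 1 - α)).comp
        tendsto_natCast_atTop_atTop).const_mul_atTop hcK
    exact hk.eventually (h1.eventually (eventually_ge_atTop (n0 : ℝ)))
  filter_upwards [hpar, e3, e4, self_mem_nhdsWithin] with lam hp g3 g4 hlam
  have h0 : 0 < lam := hlam
  rw [div_le_iff₀ h0]
  unfold criticalCurve
  apply Real.sSup_le
  · rintro h ⟨hh0, f, hf0, hf⟩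
    by_contra hcon
    push Not at hcon
    obtain ⟨b, hb0, hbk, hm1, hm2, hm3⟩ := hp h _ hcon.le rfl
    have := hNEG K hK0 α cK n0 hα hα1 hcK hKB hn1 μ hexp lam h b _ S (hn1.trans g3) g3 g4 hS4 hS3
      hb0 hbk hm1 hm2 hm3 f hf
    linarith
  · positivity

/-- annealed bound -/
lemma large_case (α : ℝ) (hα : 0 < α) (hα1 : 1 / 2 ^ 50 < α) (K : PMF ℕ)
    (μ : Measure ℝ) [IsProbabilityMeasure μ]
    (hexp : ∀ t : ℝ, Integrable (fun z => Real.exp (t * z)) μ)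
    (hmean : ∫ z, z ∂μ = 0) (hvar : ∫ z, z ^ 2 ∂μ = 1) :
    ∀ᶠ lam in 𝓝[>] (0 : ℝ), criticalCurve K μ lam / lam ≤ 1 / (1 + α) + 2 ^ 51 * α ^ 2 := by
  have e1 := LM_upper μ hexp hmean hvar 1 (2 * α) one_pos (by positivity)
  filter_upwards [e1, self_mem_nhdsWithin] with lam g1 hlam
  have h0 : 0 < lam := hlam
  rw [mul_one] at g1
  rw [div_le_iff₀ h0]
  unfold criticalCurve
  apply Real.sSup_le
  · rintro h ⟨hh0, f, hf0, hf⟩
    refine (le_annealed μ K hexp lam h0 h f hf0 hf).trans ?_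
    rw [div_le_iff₀ (by positivity)]
    refine g1.trans ?_
    have h1 : 1 + α ≤ 1 / (1 + α) + 2 ^ 51 * α ^ 2 := by
      have h2 : 1 - α ≤ 1 / (1 + α) := by
        rw [le_div_iff₀ (by positivity)]
        nlinarith
      have h3 : 2 * α ≤ 2 ^ 51 * α ^ 2 := by
        have h4 : (1 : ℝ) ≤ 2 ^ 50 * α := by
          rw [div_lt_iff₀ (by positivity)] at hα1
          linarith
        nlinarith
      linarith
    have h2 : 0 < lam ^ 2 := by positivity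
    nlinarith [mul_le_mul_of_nonneg_right h1 h2.le]
  · positivity

theorem pf_FIN (hNEG : T_NEG) (hPAR : T_PAR) (α : ℝ) (hα : 0 < α) (_hα1 : α < 1)
    (K : PMF ℕ) (hK0 : K 0 = 0) (cK : ℝ) (hcK : 0 < cK)
    (hK : Tendsto (fun n : ℕ => (K n).toReal * (n : ℝ) ^ (1 + α)) atTop (𝓝 cK))
    (μ : Measure ℝ) [IsProbabilityMeasure μ]
    (hexp : ∀ t : ℝ, Integrable (fun z => Real.exp (t * z)) μ)
    (hmean : ∫ z, z ∂μ = 0) (hvar : ∫ z, z ^ 2 ∂μ = 1) :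
    ∀ᶠ lam in 𝓝[>] (0 : ℝ), criticalCurve K μ lam / lam ≤ 1 / (1 + α) + 2 ^ 51 * α ^ 2 := by
  rcases le_or_gt α (1 / 2 ^ 50) with h | h
  · filter_upwards [small_case hNEG hPAR α hα h K hK0 cK hcK hK μ hexp hmean hvar] with lam hl
    refine hl.trans ?_
    rw [add_div]
    have h1 : 2 ^ 46 * α ^ 2 / (1 + α) ≤ 2 ^ 46 * α ^ 2 :=
      div_le_self (by positivity) (by linarith)
    have h2 : 0 ≤ α ^ 2 := sq_nonneg α
    linarith
  · exact large_case α hα h K μ hexp hmean hvar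

end Pool.Agent.H55.CU
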